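import Pool.Agent.H174.GP.StP

/-!
# GP Z1: geometric stability of the Laplace law
-/

open MeasureTheory ProbabilityTheory Finset

namespace Pool.Agent.H772.GP174

open Pool.Agent.H174.GP

theorem measurable_S (n : ℕ) : Measurable (fun ω : ℕ → ℝ => S ω n) := by
  unfold S
  exact Finset.measurable_sum _ fun i _ => measurable_pi_apply i

/-- The characteristic function of a multiple of the partial sums. -/
theorem charFun_S (h1 : S_L5) (n : ℕ) (r t : ℝ) :
    charFun (PP.map (fun ω : ℕ → ℝ => r * S ω n)) t =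
      (((1 / (1 + (r * t) ^ 2) : ℝ)) : ℂ) ^ n := by
  have hind : iIndepFun (fun (i : ℕ) (ω : ℕ → ℝ) => ω i) PP := by
    unfold PP
    exact iIndepFun_infinitePi (X := fun _ x => x) (fun _ => measurable_id)
  have hmap : ∀ i : ℕ, PP.map (fun ω : ℕ → ℝ => ω i) = lap := fun i =>
    Measure.infinitePi_map_eval _ i
  have hS : charFun (PP.map (fun ω : ℕ → ℝ => S ω n)) =
      ∏ i ∈ Icc 1 n, charFun (PP.map (fun ω : ℕ → ℝ => ω i)) :=
    (hind.restrict _).charFun_map_fun_finsetSum_eq_prod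
      (fun i _ => (measurable_pi_apply i).aemeasurable)
  rw [charFun_map_mul_comp (measurable_S n).aemeasurable, hS, Finset.prod_apply]
  have h2 : ∀ i ∈ Icc 1 n, charFun (PP.map (fun ω : ℕ → ℝ => ω i)) (r * t) =
      ((1 / (1 + (r * t) ^ 2) : ℝ) : ℂ) := by
    intro i _
    rw [hmap, h1]
    push_cast
    ring
  rw [Finset.prod_congr rfl h2, Finset.prod_const, Nat.card_Icc, Nat.add_sub_cancel]

theorem gp_z1 (h1 : S_L5) : Pool.Agent.H174.GP.S_Z1 := by
  intro K B hK hB
  have hK0 : (0 : ℝ) < K := by exact_mod_cast hK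
  have hpv : ((pK K : unitInterval) : ℝ) = 1 / (K : ℝ) := rfl
  have hp0 : pK K ≠ 0 := by
    intro h
    have h2 : ((pK K : unitInterval) : ℝ) = 0 := by rw [h]; rfl
    rw [hpv] at h2
    have h3 : (0 : ℝ) < 1 / K := by positivity
    linarith
  have hμ : ∀ k : ℕ, IsProbabilityMeasure
      (PP.map (fun ω : ℕ → ℝ => (Real.sqrt K)⁻¹ * S ω (k + 1))) := fun k =>
    Measure.isProbabilityMeasure_map (((measurable_S (k + 1)).const_mul _).aemeasurable)
  let c : ℕ → ENNReal := fun k => (geometricMeasure (pK K)) {k}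
  let ν : Measure ℝ := Measure.sum fun k : ℕ =>
    c k • PP.map (fun ω : ℕ → ℝ => (Real.sqrt K)⁻¹ * S ω (k + 1))
  have hcsum : ∑' k, c k = 1 := by
    have h2 := Measure.tsum_indicator_apply_singleton (geometricMeasure (pK K)) Set.univ
      MeasurableSet.univ
    simp only [Set.indicator_univ, measure_univ] at h2
    exact h2
  have hν : ν Set.univ = 1 := by
    change (Measure.sum fun k : ℕ =>
      c k • PP.map (fun ω : ℕ → ℝ => (Real.sqrt K)⁻¹ * S ω (k + 1))) Set.univ = 1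
    rw [Measure.sum_apply _ MeasurableSet.univ, ← hcsum]
    refine tsum_congr fun k => ?_
    have := hμ k
    rw [Measure.smul_apply, measure_univ, smul_eq_mul, mul_one]
  have hνp : IsProbabilityMeasure ν := ⟨hν⟩
  have hchar : charFun ν = charFun lap := by
    funext t
    rw [charFun_apply_real]
    have hint : Integrable (fun x : ℝ => Complex.exp (t * x * Complex.I)) ν := by
      refine Integrable.of_bound (C := 1) ?_ ?_
      · exact Measurable.aestronglyMeasurable (by fun_prop)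
      · refine Filter.Eventually.of_forall fun x => ?_
        rw [← Complex.ofReal_mul, Complex.norm_exp_ofReal_mul_I]
    have hsum := hasSum_integral_measure hint
    have hterm : ∀ k : ℕ, (∫ x : ℝ, Complex.exp (t * x * Complex.I)
        ∂(c k • PP.map (fun ω : ℕ → ℝ => (Real.sqrt K)⁻¹ * S ω (k + 1)))) =
        (((1 - 1 / (K : ℝ)) ^ k * (1 / (K : ℝ)) *
          (1 / (1 + ((Real.sqrt K)⁻¹ * t) ^ 2)) ^ (k + 1) : ℝ) : ℂ) := by
      intro k
      have h2 := charFun_S h1 (k + 1) (Real.sqrt K)⁻¹ t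
      rw [charFun_apply_real] at h2
      rw [integral_smul_measure, h2]
      have h3 : (c k).toReal = (1 - 1 / (K : ℝ)) ^ k * (1 / (K : ℝ)) := by
        have h4 := geometricMeasure_real_singleton hp0 k
        rw [measureReal_def, hpv] at h4
        exact h4
      rw [h3, Complex.real_smul]
      push_cast
      ring
    have hsum2 : HasSum (fun k : ℕ => (((1 - 1 / (K : ℝ)) ^ k * (1 / (K : ℝ)) *
          (1 / (1 + ((Real.sqrt K)⁻¹ * t) ^ 2)) ^ (k + 1) : ℝ) : ℂ))
        (((1 / (1 + t ^ 2) : ℝ)) : ℂ) := by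
      refine Complex.hasSum_ofReal.2 ?_
      have hsq : ((Real.sqrt K)⁻¹ * t) ^ 2 = t ^ 2 / K := by
        rw [mul_pow, inv_pow, Real.sq_sqrt hK0.le]
        ring
      rw [hsq]
      have hK1 : (1 : ℝ) ≤ K := by exact_mod_cast hK
      have hq0 : 0 ≤ 1 - 1 / (K : ℝ) := by
        have : 1 / (K : ℝ) ≤ 1 := (div_le_one hK0).2 hK1
        linarith
      have hφ0 : 0 < 1 / (1 + t ^ 2 / (K : ℝ)) := by positivity
      have hφ1 : 1 / (1 + t ^ 2 / (K : ℝ)) ≤ 1 := by
        rw [div_le_one (by positivity)]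
        have : 0 ≤ t ^ 2 / (K : ℝ) := by positivity
        linarith
      have hr1 : (1 - 1 / (K : ℝ)) * (1 / (1 + t ^ 2 / (K : ℝ))) < 1 := by
        have h5 : 0 < 1 / (K : ℝ) := by positivity
        calc (1 - 1 / (K : ℝ)) * (1 / (1 + t ^ 2 / (K : ℝ)))
            ≤ (1 - 1 / (K : ℝ)) * 1 := mul_le_mul_of_nonneg_left hφ1 hq0
          _ < 1 := by linarith
      have hg := (hasSum_geometric_of_lt_one (mul_nonneg hq0 hφ0.le) hr1).mul_right
        (1 / (K : ℝ) * (1 / (1 + t ^ 2 / (K : ℝ))))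
      have hval : (1 - (1 - 1 / (K : ℝ)) * (1 / (1 + t ^ 2 / (K : ℝ))))⁻¹ *
          (1 / (K : ℝ) * (1 / (1 + t ^ 2 / (K : ℝ)))) = 1 / (1 + t ^ 2) := by
        have h6 : (1 : ℝ) + t ^ 2 / K ≠ 0 := by positivity
        have h7 : 1 - (1 - 1 / (K : ℝ)) * (1 / (1 + t ^ 2 / (K : ℝ))) =
            (1 + t ^ 2) / K / (1 + t ^ 2 / (K : ℝ)) := by
          field_simp
          ring
        rw [h7]
        have h8 : (1 : ℝ) + t ^ 2 ≠ 0 := by positivity
        field_simp
      rw [hval] at hg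
      refine hg.congr_fun ?_
      intro k
      rw [mul_pow, pow_succ]
      ring
    have hsum3 : HasSum (fun k : ℕ => (((1 - 1 / (K : ℝ)) ^ k * (1 / (K : ℝ)) *
          (1 / (1 + ((Real.sqrt K)⁻¹ * t) ^ 2)) ^ (k + 1) : ℝ) : ℂ))
        (∫ x : ℝ, Complex.exp (t * x * Complex.I) ∂ν) := by
      have h9 : (fun k : ℕ => ∫ x : ℝ, Complex.exp (t * x * Complex.I)
          ∂(c k • PP.map (fun ω : ℕ → ℝ => (Real.sqrt K)⁻¹ * S ω (k + 1)))) =
          fun k : ℕ => (((1 - 1 / (K : ℝ)) ^ k * (1 / (K : ℝ)) *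
          (1 / (1 + ((Real.sqrt K)⁻¹ * t) ^ 2)) ^ (k + 1) : ℝ) : ℂ) := funext hterm
      rw [← h9]
      exact hsum
    rw [hsum3.unique hsum2, h1 t]
    push_cast
    rfl
  have heq : ν = lap := Measure.ext_of_charFun hchar
  rw [← heq]
  change _ = (Measure.sum fun k : ℕ =>
      c k • PP.map (fun ω : ℕ → ℝ => (Real.sqrt K)⁻¹ * S ω (k + 1))) B
  rw [Measure.sum_apply _ hB]
  refine tsum_congr fun k => ?_
  rw [Measure.smul_apply, smul_eq_mul,
    Measure.map_apply ((measurable_S (k + 1)).const_mul _) hB]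
  have hset : {ω : ℕ → ℝ | S ω (k + 1) / Real.sqrt K ∈ B} =
      (fun ω : ℕ → ℝ => (Real.sqrt K)⁻¹ * S ω (k + 1)) ⁻¹' B := by
    ext ω
    change S ω (k + 1) / Real.sqrt K ∈ B ↔ (Real.sqrt K)⁻¹ * S ω (k + 1) ∈ B
    rw [div_eq_inv_mul]
  rw [hset]

end Pool.Agent.H772.GP174
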