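import Pool.Agent.H174.GP.StD
import Pool.Agent.H658.GP174.Crit

/-!
# GP rowsum: row sums in Durfee coordinates
-/

open Finset

namespace Pool.Agent.H772.GP174

open Pool.Agent.H174.GP

/-- The sorted list of parts: the `d` top parts, followed by parts which are at most `d`. -/
theorem sort_toP (d : ℕ) (g h : Fin d → ℕ) :
    ∃ B : List ℕ, (toP d g h).sort (· ≥ ·) = List.ofFn (topP d g) ++ B := by
  have hlow : ∀ x ∈ (∑ l : Fin d, Multiset.replicate (h l) ((l : ℕ) + 1)), x ≤ d := by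
    intro x hx
    rw [Multiset.mem_sum] at hx
    obtain ⟨l, _, hl⟩ := hx
    rw [Multiset.eq_of_mem_replicate hl]
    exact l.isLt
  have hB0 : (((∑ l : Fin d, Multiset.replicate (h l) ((l : ℕ) + 1)).sort (· ≥ ·) : List ℕ) :
      Multiset ℕ) = ∑ l : Fin d, Multiset.replicate (h l) ((l : ℕ) + 1) :=
    Multiset.sort_eq _ _
  have hB1 : ((∑ l : Fin d, Multiset.replicate (h l) ((l : ℕ) + 1)).sort
      (· ≥ ·)).Pairwise (· ≥ ·) := Multiset.pairwise_sort _ _
  generalize (∑ l : Fin d, Multiset.replicate (h l) ((l : ℕ) + 1)).sort (· ≥ ·) = B at hB0 hB1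
  have hB : ∀ x ∈ B, x ≤ d := by
    intro x hx
    apply hlow
    rw [← hB0]
    exact Multiset.mem_coe.mpr hx
  have hA : ∀ x ∈ List.ofFn (topP d g), d ≤ x := by
    intro x hx
    obtain ⟨i, rfl⟩ := (List.mem_ofFn' _ _).mp hx
    unfold topP
    exact Nat.le_add_right _ _
  have hL : (List.ofFn (topP d g) ++ B).Pairwise (· ≥ ·) := by
    rw [List.pairwise_append]
    refine ⟨List.pairwise_ofFn.mpr
      (fun i j hij => Pool.Agent.H658.GP174.topP_anti d g i j hij.le), hB1, ?_⟩
    intro a ha b hb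
    exact (hB b hb).trans (hA a ha)
  have hs : toP d g h = ((List.ofFn (topP d g) ++ B : List ℕ) : Multiset ℕ) := by
    unfold toP
    rw [← Multiset.coe_add, hB0, Fin.univ_val_map]
  refine ⟨B, List.Perm.eq_of_pairwise' (Multiset.pairwise_sort _ _) hL ?_⟩
  rw [← Multiset.coe_eq_coe, Multiset.sort_eq, hs]

theorem gp_rowsum : Pool.Agent.H174.GP.S_rowsum := by
  intro d g h k hk
  obtain ⟨B, hB⟩ := sort_toP d g h
  rw [hB, List.take_append_of_le_length (by rw [List.length_ofFn]; exact hk),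
    Pool.Agent.H658.GP174.top_sum d k hk g]

end Pool.Agent.H772.GP174
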